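import Pool.Agent.Helper50.AY.St

set_option autoImplicit false

namespace Pool.Agent.Helper95.AY

open Pool.Agent.Helper50.AY Pool.Agent.Helper43.GD Polynomial

theorem hUN1 (hND : StND) : StUN1 := by
  intro L _ p _ k x hR ev hev
  have hP0 : ev (C 2 * X ^ (p ^ (p ^ k)) - C 2 * X - 1) = 0 := by
    have e2 : (C 2 : (ZMod p)[X]) = 2 := rfl
    rw [map_sub, map_sub, map_mul, map_mul, map_pow, map_one, hev, e2, map_ofNat, hR.as]
    ring
  have hirr : ∀ f : (ZMod p)[X], Irreducible f → f.natDegree < p ^ (k + 1) → IsUnit (ev f) := by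
    intro f hf hd
    have h1 := hND p k hR.five f hf hd
    have h2 : IsCoprime f (C 2 * X ^ (p ^ (p ^ k)) - C 2 * X - 1) :=
      (Irreducible.coprime_iff_not_dvd hf).2 h1
    obtain ⟨u, v, huv⟩ := h2
    have h3 := congrArg ev huv
    rw [map_add, map_mul, map_mul, hP0, mul_zero, add_zero, map_one] at h3
    exact IsUnit.of_mul_eq_one (ev u) (by rw [mul_comm]; exact h3)
  intro f hf0 hfd
  revert hf0 hfd
  induction f using UniqueFactorizationMonoid.induction_on_prime with
  | h₁ => intro h _; exact absurd rfl h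
  | h₂ f hf => intro _ _; exact hf.map ev
  | h₃ f g hf hg ih =>
    intro _ hd
    have hg0 : g ≠ 0 := hg.ne_zero
    rw [natDegree_mul hg0 hf] at hd
    rw [map_mul]
    exact (hirr g hg.irreducible (by omega)).mul (ih hf (by omega))

end Pool.Agent.Helper95.AY
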